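import Pool.Agent.Helper88_SA.StmtG

/-! Squad SA, module PAY (helper99). -/

set_option autoImplicit false

namespace SA.H99

open SA

theorem filter_succ (s : Finset ℕ) (m : ℕ) : s.filter (fun j => j < m + 1) =
    if m ∈ s then insert m (s.filter (fun j => j < m)) else s.filter (fun j => j < m) := by
  split_ifs with h
  · ext j
    simp only [Finset.mem_filter, Finset.mem_insert]
    constructor
    · rintro ⟨h1, h2⟩
      rcases Nat.lt_succ_iff_lt_or_eq.1 h2 with h3 | h3
      · exact Or.inr ⟨h1, h3⟩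
      · exact Or.inl h3
    · rintro (rfl | ⟨h1, h2⟩)
      · exact ⟨h, Nat.lt_succ_self _⟩
      · exact ⟨h1, Nat.lt_succ_of_lt h2⟩
  · ext j
    simp only [Finset.mem_filter]
    constructor
    · rintro ⟨h1, h2⟩
      rcases Nat.lt_succ_iff_lt_or_eq.1 h2 with h3 | h3
      · exact ⟨h1, h3⟩
      · subst h3; exact absurd h1 h
    · rintro ⟨h1, h2⟩
      exact ⟨h1, Nat.lt_succ_of_lt h2⟩

theorem cnt_succ (s : Finset ℕ) (m : ℕ) :
    (cnt s (m + 1) : ℝ) = cnt s m + if m ∈ s then 1 else 0 := by
  unfold cnt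
  rw [filter_succ]
  split_ifs with h
  · rw [Finset.card_insert_of_notMem (by simp)]
    push_cast
    ring
  · ring

theorem sum_key (s : Finset ℕ) (m : ℕ) :
    ∑ j ∈ s.filter (fun j => j < m), (j : ℝ) + (56 - (cnt s m : ℝ)) * m =
      ∑ j ∈ Finset.range m, ((56 : ℝ) - (cnt s (j + 1) : ℝ)) := by
  induction m with
  | zero => simp
  | succ m ih =>
    rw [Finset.sum_range_succ, ← ih, filter_succ, cnt_succ]
    split_ifs with h
    · rw [Finset.sum_insert (by simp)]
      push_cast
      ring
    · push_cast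
      ring

theorem pay : PayStmt := by
  intro T s _ n
  rw [← sum_key]
  unfold payoff
  push_cast
  split_ifs with h
  · ring
  · ring

end SA.H99
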