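import Pool.Agent.Helper88_SA.StmtP

/-! Module AM of part C. -/

set_option autoImplicit false

namespace SA.H99

theorem am (hA : StepAStmt) (hR : RefStmt) (hW : WinStmt) : AmStmt := by
  intro T x0 z th hc k hk j hj i hri hik hcyc
  obtain ⟨-, -, href⟩ := hR T x0 z th hc k hk
  obtain ⟨-, -, -, -, -, -, hr7, hr8⟩ := href j hj
  have hstep : ∀ m, m < k → Am T x0 th (m + 1) ≤ Am T x0 th m + 1.0489 / 10 ^ 5 - kk T x0 th m ∧
      Am T x0 th m - zz T x0 m ≤ Am T x0 th (m + 1) ∧ 0 ≤ zz T x0 m ∧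
      zz T x0 m ≤ 6.46 / 10 ^ 4 * Dh T x0 m ∧ 0 ≤ Dh T x0 m := by
    intro m hm
    obtain ⟨h1, h2, -, -, -, h6, h7, h8, -⟩ :=
      hA T x0 z th hc m (fun i hi => hk i (lt_of_le_of_lt hi hm))
    have hA1 : Am T x0 th m ≤ 1.0573 := (hk m hm).Ahi
    refine ⟨?_, h2, h6, h7, h8⟩
    norm_num at h1 hA1 ⊢
    linarith
  have hlen : i ≤ ref T x0 th j + 49 := by
    by_cases hjk : (j : ℤ) + 1 ≤ cyc T x0 th k
    · have h48 := hr7 hjk
      obtain ⟨h1, h2, -⟩ := href (j + 1) (by push_cast; exact hjk)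
      by_contra hlt
      push Not at hlt
      have h3 : ref T x0 th (j + 1) < i := by omega
      have h4 : ref T x0 th j ≤ ref T x0 th (j + 1) := by omega
      have h5 := hcyc _ h4 h3
      rw [h5] at h2
      push_cast at h2
      omega
    · have h1 : cyc T x0 th k = j := by omega
      have := hr8 h1
      omega
  have key : ∀ i, ref T x0 th j ≤ i → i ≤ k →
      Am T x0 th i ≤ Am T x0 th (ref T x0 th j) + ((i : ℝ) - ref T x0 th j) * (1.0489 / 10 ^ 5)
        - ∑ m ∈ Finset.Ico (ref T x0 th j) i, kk T x0 th m ∧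
      Am T x0 th (ref T x0 th j) - ∑ m ∈ Finset.Ico (ref T x0 th j) i, zz T x0 m
        ≤ Am T x0 th i := by
    intro i hi
    induction i, hi using Nat.le_induction with
    | base => intro _; simp
    | succ m hm ih =>
      intro hmk
      obtain ⟨g1, g2⟩ := ih (by omega)
      obtain ⟨s1, s2, -⟩ := hstep m (by omega)
      rw [Finset.sum_Ico_succ_top hm, Finset.sum_Ico_succ_top hm]
      push_cast
      constructor
      · linarith
      · linarith
  obtain ⟨k1, k2⟩ := key i hri hik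
  refine ⟨?_, k2, ?_⟩
  · have h1 : ((i : ℝ) - ref T x0 th j) ≤ 49 := by
      have : (i : ℝ) ≤ ref T x0 th j + 49 := by exact_mod_cast hlen
      linarith
    have h2 : ((i : ℝ) - ref T x0 th j) * (1.0489 / 10 ^ 5) ≤ 49 * (1.0489 / 10 ^ 5) :=
      mul_le_mul_of_nonneg_right h1 (by norm_num)
    have h3 : (49 : ℝ) * (1.0489 / 10 ^ 5) ≤ 5.14 / 10 ^ 4 := by norm_num
    linarith
  · have hD := (hW T x0 z th hc k hk).2.1 j
    have h1 : ∑ m ∈ Finset.Ico (ref T x0 th j) i, zz T x0 m ≤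
        ∑ m ∈ Finset.Ico (ref T x0 th j) i, 6.46 / 10 ^ 4 * Dh T x0 m := by
      apply Finset.sum_le_sum
      intro m hm
      rw [Finset.mem_Ico] at hm
      exact (hstep m (by omega)).2.2.2.1
    rw [← Finset.mul_sum] at h1
    have h2 : ∑ m ∈ Finset.Ico (ref T x0 th j) i, Dh T x0 m ≤
        ∑ m ∈ (Finset.range k).filter (fun i => cyc T x0 th i = (j : ℤ)), Dh T x0 m := by
      apply Finset.sum_le_sum_of_subset_of_nonneg
      · intro m hm
        rw [Finset.mem_Ico] at hm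
        rw [Finset.mem_filter, Finset.mem_range]
        exact ⟨by omega, hcyc m hm.1 hm.2⟩
      · intro m hm _
        rw [Finset.mem_filter, Finset.mem_range] at hm
        exact (hstep m hm.1).2.2.2.2
    have h3 : (6.46 / 10 ^ 4 : ℝ) * ∑ m ∈ Finset.Ico (ref T x0 th j) i, Dh T x0 m ≤
        6.46 / 10 ^ 4 * 9.1 := mul_le_mul_of_nonneg_left (le_trans h2 hD) (by norm_num)
    have h4 : (6.46 / 10 ^ 4 * 9.1 : ℝ) ≤ 5.9 / 10 ^ 3 := by norm_num
    linarith

end SA.H99
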